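import Pool.Agent.Lib.MP_65ca9f_nt.Quality
import Pool.Agent.Lib.MP_65ca9f_nt.Reduce
import Pool.Agent.Lib.MP_65ca9f_nt.Lower

/-!
# Differences of `k`-powerful numbers and the quality of abc triples

Few integers up to `X` have a representation as a difference of two `k`-powerful numbers in which
the larger number, divided by the greatest common divisor of the two, is at most
`K * rad ^ (1 + θ)`.
-/

set_option autoImplicit false

namespace Pool.Agent.Results.MP_65ca9f_nt.AbcQuality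

open Finset Pool.Agent.Lib.MP_65ca9f_nt

/-- `n` is `k`-powerful -/
def Powerful (k n : ℕ) : Prop := 0 < n ∧ ∀ p : ℕ, p.Prime → p ∣ n → p ^ k ∣ n

/-- the elements of `D_k` in `[1, X]` -/
def DSet (k X : ℕ) : Set ℕ :=
  {N | 1 ≤ N ∧ N ≤ X ∧ ∃ n₁ n₂ : ℕ, Powerful k n₁ ∧ Powerful k n₂ ∧ N + n₂ = n₁}

/-- the product of the primes dividing `n` -/
def rad (n : ℕ) : ℕ := ∏ p ∈ n.primeFactors, p

/-- the `N` in `[1, X]` with a representation `N = g * u - g * v`, where `g * u` and `g * v` are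
`k`-powerful, `u` and `v` are coprime, `w = u - v` and `u ≤ K * rad (u * v * w) ^ (1 + θ)` -/
def LowSet (k X : ℕ) (θ K : ℝ) : Set ℕ :=
  {N | 1 ≤ N ∧ N ≤ X ∧ ∃ g u v w : ℕ, Nat.Coprime u v ∧ v + w = u ∧ N = g * w ∧
    Powerful k (g * u) ∧ Powerful k (g * v) ∧
    (u : ℝ) ≤ K * (rad (u * v * w) : ℝ) ^ (1 + θ)}

/-- the admissible exponents `e` for the quality `1 + θ` -/
def Adm (k : ℕ) (θ e : ℝ) : Prop :=
  0 ≤ θ ∧ 2 * (1 + θ) < k ∧ 2 / (k : ℝ) ≤ e ∧
    ∀ m : ℕ, 2 ≤ m → m ≤ k →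
      4 * ((m : ℝ) - 1) * (1 + θ) ≤ e * (m * (2 * k - 5 - 4 * θ + m))

private theorem upper {k : ℕ} (hk : 3 ≤ k) {θ e K ε : ℝ} (hadm : Adm k θ e) (hε : 0 < ε) :
    ∃ X₀ : ℕ, ∀ X : ℕ, X₀ ≤ X → ((LowSet k X θ K).ncard : ℝ) ≤ (X : ℝ) ^ (e + ε) := by
  classical
  obtain ⟨hθ, hθk, he, hm⟩ := hadm
  have hK : (3 : ℝ) ≤ k := by exact_mod_cast hk
  have hK0 : (0 : ℝ) < k := by linarith
  have hs := ss_nonneg k
  have he0 : 0 < e := lt_of_lt_of_le (by positivity) he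
  set τ : ℝ := e / (2 * (1 + θ)) with hτ
  have hτ0 : 0 ≤ τ := by positivity
  have hτe : 2 * τ * (1 + θ) = e := by
    rw [hτ]
    field_simp
  have hcond : ∀ m : ℕ, 1 ≤ m → m ≤ k →
      (m : ℝ) - 1 ≤ τ * (m * (2 * (k - 2 * (1 + θ)) + m - 1) / 2) := by
    intro m hm1 hmk
    rcases Nat.eq_or_lt_of_le hm1 with h | h
    · rw [← h]
      push_cast
      have : 0 ≤ τ * (1 * (2 * ((k : ℝ) - 2 * (1 + θ)) + 1 - 1) / 2) :=
        mul_nonneg hτ0 (by linarith)
      linarith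
    · have h1 := hm m h hmk
      have h2 : τ * (m * (2 * (k - 2 * (1 + θ)) + m - 1) / 2) =
          e * (m * (2 * k - 5 - 4 * θ + m)) / (4 * (1 + θ)) := by
        rw [hτ]
        field_simp
        ring
      rw [h2, le_div_iff₀ (by positivity)]
      linarith
  obtain ⟨κ, hκ0, hκK⟩ : ∃ κ : ℝ, 0 ≤ κ ∧ K ≤ (2 : ℝ) ^ κ := by
    refine ⟨Real.logb 2 (max 1 K), Real.logb_nonneg (by norm_num) (le_max_left _ _), ?_⟩
    rw [Real.rpow_logb (by norm_num) (by norm_num)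
      (lt_of_lt_of_le one_pos (le_max_left _ _))]
    exact le_max_right _ _
  set L : ℝ := (1 + θ) * k / (k - 2 * (1 + θ)) with hL
  have hL0 : 0 ≤ L := div_nonneg (by positivity) (by linarith)
  set Cst : ℝ := 2 * k + ss k / k + τ * (2 * (1 + θ) * (2 * k + κ) + ss k) with hCst
  obtain ⟨X₀, hX₀⟩ := asym_nat (A := L + 1) (B := L * (2 * k + κ + ss k) + ss k + 1)
    (by positivity) (by positivity) (3 * k) (K := 2 * (2 : ℝ) ^ Cst) (δ := ε) (by positivity) hε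
  refine ⟨X₀, fun X hX => ?_⟩
  obtain ⟨x, hx0, hxX, hx⟩ := hX₀ X hX
  set I : Finset ℕ := (Icc 1 X).filter (fun N => N ∈ LowSet k X θ K) with hI
  have hIeq : (I : Set ℕ) = LowSet k X θ K := by
    ext N
    rw [hI, mem_coe, mem_filter, mem_Icc]
    exact ⟨fun h => h.2, fun h => ⟨⟨h.1, h.2.1⟩, h⟩⟩
  rw [← hIeq, Set.ncard_coe_finset]
  have hch := choose_tuples (k := k) I (fun z => Rep ((2 : ℝ) ^ x) z ∧
      (W z.2.1 : ℝ) ≤ ((2 : ℝ) ^ κ * ((pr z.2.1 : ℝ) * pr z.2.2 *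
        ((W z.2.1 : ℝ) - W z.2.2))) ^ (1 + θ)) ?_
  · obtain ⟨S, hS1, hS2⟩ := hch
    rw [← hS1]
    have key := quality_count hk hθ hθk hτ0 hcond hκ0 hx0 S hS2
    rw [hτe, max_eq_right he, ← hL, ← hCst] at key
    refine key.trans ?_
    have e1 : L * x + (L * (2 * k + κ + ss k) + x + ss k + 1) =
        (L + 1) * x + (L * (2 * k + κ + ss k) + ss k + 1) := by ring
    rw [e1, Real.rpow_add (by norm_num : (0 : ℝ) < 2)]
    have e2 : (X : ℝ) ^ (e + ε) = (2 : ℝ) ^ (e * x) * (2 : ℝ) ^ (ε * x) := by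
      rw [← hxX, ← Real.rpow_mul (by norm_num), ← Real.rpow_add (by norm_num)]
      congr 1
      ring
    rw [e2]
    calc ((L + 1) * x + (L * (2 * k + κ + ss k) + ss k + 1)) ^ (3 * k) *
          (2 * ((2 : ℝ) ^ (e * x) * (2 : ℝ) ^ Cst)) = (2 : ℝ) ^ (e * x) *
          (((L + 1) * x + (L * (2 * k + κ + ss k) + ss k + 1)) ^ (3 * k) *
            (2 * (2 : ℝ) ^ Cst)) := by ring
      _ ≤ _ := mul_le_mul_of_nonneg_left hx (by positivity)
  · intro N hN
    rw [hI, mem_filter] at hN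
    obtain ⟨-, hN1, hN2, g, u, v, w, huv, hvw, hgw, h1, h2, hq⟩ := hN
    have hgu := h1.1
    have hgv := h2.1
    have hg : 0 < g := (CanonicallyOrderedAdd.mul_pos.1 hgu).1
    have hu : 0 < u := (CanonicallyOrderedAdd.mul_pos.1 hgu).2
    have hv : 0 < v := (CanonicallyOrderedAdd.mul_pos.1 hgv).2
    have hw : 0 < w := by
      rcases Nat.eq_zero_or_pos w with h | h
      · rw [h, mul_zero] at hgw
        omega
      · exact h
    have hsum : N + g * v = g * u := by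
      rw [hgw, ← hvw]
      ring
    obtain ⟨z, hz, e1, e2⟩ := reduce (k := k) (by omega) hN1 h1 h2 hsum
    refine ⟨z, ⟨hz.mono ?_, ?_⟩, ?_⟩
    · rw [hxX]
      exact_mod_cast hN2
    · refine reduce_quality hz hθ (Real.one_le_rpow (by norm_num) hκ0) huv hg hu hv hw hvw e1 e2 ?_
      refine hq.trans ?_
      exact mul_le_mul_of_nonneg_right hκK (by positivity)
    · rw [e1, e2, hsum]

/-- **Theorem.** -/
theorem result :
    (∀ k : ℕ, 3 ≤ k → ∀ θ e : ℝ, Adm k θ e → ∀ K ε : ℝ, 0 < ε →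
      ∃ X₀ : ℕ, ∀ X : ℕ, X₀ ≤ X →
        (X : ℝ) ^ (2 / (k : ℝ) - ε) ≤ ((DSet k X).ncard : ℝ) ∧
        ((LowSet k X θ K).ncard : ℝ) ≤ (X : ℝ) ^ (e + ε)) ∧
    (∀ k : ℕ, 4 ≤ k → Adm k (2 / (7 * k)) (2 / k)) ∧
    (∀ θ : ℝ, 0 ≤ θ → θ < 1 / 2 → Adm 3 θ (2 * (1 + θ) / (3 - 4 * θ))) ∧
    (∀ k : ℕ, 6 ≤ k → Adm k 1 (8 / 9)) := by
  classical
  refine ⟨?_, ?_, ?_, ?_⟩
  · intro k hk θ e hadm K ε hε
    obtain ⟨X₁, h1⟩ := lower (k := k) (by omega) hε
    obtain ⟨X₂, h2⟩ := upper hk (K := K) hadm hε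
    refine ⟨max X₁ X₂, fun X hX => ⟨?_, h2 X ((le_max_right _ _).trans hX)⟩⟩
    obtain ⟨I, hI1, hI2⟩ := h1 X ((le_max_left _ _).trans hX)
    refine hI1.trans ?_
    have h3 : (I : Set ℕ) ⊆ DSet k X := by
      intro N hN
      obtain ⟨n1, n2, a, b, hb, hab, -⟩ := hI2 N hN
      have hpow : ∀ c : ℕ, 0 < c → Powerful k (c ^ k) := by
        intro c hc
        refine ⟨pow_pos hc k, fun p hp hpc => ?_⟩
        exact pow_dvd_pow_of_dvd (hp.dvd_of_dvd_pow hpc) k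
      refine ⟨n1, n2, a ^ k, b ^ k, hpow a ?_, hpow b hb, hab⟩
      rcases Nat.eq_zero_or_pos a with h | h
      · rw [h, zero_pow (by omega)] at hab
        omega
      · exact h
    have hfin : (DSet k X).Finite := (Set.finite_Icc 1 X).subset fun N hN => ⟨hN.1, hN.2.1⟩
    have h4 := Set.ncard_le_ncard h3 hfin
    rw [Set.ncard_coe_finset] at h4
    exact_mod_cast h4
  · intro k hk
    have hK : (4 : ℝ) ≤ k := by exact_mod_cast hk
    have hK0 : (0 : ℝ) < k := by linarith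
    have hθ : (2 : ℝ) / (7 * k) ≤ 1 / 14 := by
      rw [div_le_div_iff₀ (by positivity) (by norm_num)]
      linarith
    refine ⟨by positivity, by linarith, le_rfl, fun m hm hmk => ?_⟩
    have hm2 : (2 : ℝ) ≤ m := by exact_mod_cast hm
    have hint : 0 ≤ ((7 * (m : ℝ) - 20) * (m - 3)) := by
      rcases Nat.lt_or_ge m 3 with h | h
      · have : m = 2 := by omega
        rw [this]
        norm_num
      · have : (3 : ℝ) ≤ m := by exact_mod_cast h
        exact mul_nonneg (by linarith) (by linarith)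
    have e1 : 2 / (k : ℝ) * (m * (2 * k - 5 - 4 * (2 / (7 * k)) + m)) -
        4 * ((m : ℝ) - 1) * (1 + 2 / (7 * k)) =
        2 / k * (m ^ 2 - 5 * m + 2 * k - 4 / 7 * (m - 1) - 8 * m / (7 * k)) := by
      field_simp
      ring
    have e2 : 8 * (m : ℝ) / (7 * k) ≤ 2 * m / 7 := by
      rw [div_le_div_iff₀ (by positivity) (by norm_num)]
      nlinarith
    have e3 : 0 ≤ 2 / (k : ℝ) * (m ^ 2 - 5 * m + 2 * k - 4 / 7 * (m - 1) - 8 * m / (7 * k)) := by
      refine mul_nonneg (by positivity) ?_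
      nlinarith
    linarith
  · intro θ h0 h1
    have hd : 0 < 3 - 4 * θ := by linarith
    refine ⟨h0, by push_cast; linarith, ?_, fun m hm hmk => ?_⟩
    · rw [le_div_iff₀ hd]
      push_cast
      linarith
    · rw [div_mul_eq_mul_div, le_div_iff₀ hd]
      have hm' : m = 2 ∨ m = 3 := by omega
      rcases hm' with rfl | rfl
      · push_cast
        nlinarith
      · push_cast
        nlinarith [mul_nonneg h0 h0, mul_nonneg (mul_nonneg h0 h0) h0]
  · intro k hk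
    have hK : (6 : ℝ) ≤ k := by exact_mod_cast hk
    refine ⟨by norm_num, by linarith, ?_, fun m hm hmk => ?_⟩
    · rw [div_le_div_iff₀ (by linarith) (by norm_num)]
      linarith
    · have hm2 : (2 : ℝ) ≤ m := by exact_mod_cast hm
      nlinarith [sq_nonneg ((m : ℝ) - 3), mul_nonneg (by linarith : (0 : ℝ) ≤ m)
        (by linarith : (0 : ℝ) ≤ (k : ℝ) - 6)]

end Pool.Agent.Results.MP_65ca9f_nt.AbcQuality
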