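import Pool.Agent.Lib.MP_65ca9f_nt.Reduce2
import Pool.Agent.Lib.MP_65ca9f_nt.Lower

/-!
# Differences of `k`-powerful numbers of arbitrary size

The `k`-powerful numbers are the products `a₀ ^ k * a₁ ^ (k + 1) * ... * a_{k-1} ^ (2 k - 1)`.
-/

set_option autoImplicit false

namespace Pool.Agent.Results.MP_65ca9f_nt.AnySize

open Finset Pool.Agent.Lib.MP_65ca9f_nt

/-- The `N` in `[1, X]` which are a difference of two `k`-powerful numbers, of any size,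
`∏ a_l ^ (k + l)` and `∏ b_l ^ (k + l)`, where for some index `i` the product of the `a_l b_l`
with `l ≠ i` is at most `X ^ τ`. -/
def OffSmall (k X : ℕ) (τ : ℝ) : Set ℕ :=
  {N | 1 ≤ N ∧ N ≤ X ∧ ∃ (a b : Fin k → ℕ) (i : Fin k), (∀ l, 0 < a l) ∧ (∀ l, 0 < b l) ∧
    N + ∏ l : Fin k, b l ^ (k + (l : ℕ)) = ∏ l : Fin k, a l ^ (k + (l : ℕ)) ∧
    ∏ l ∈ univ.erase i, ((a l : ℝ) * (b l : ℝ)) ≤ (X : ℝ) ^ τ}

private theorem upper {k : ℕ} (hk : 3 ≤ k) {τ ε : ℝ} (hτ0 : 0 ≤ τ) (hτ1 : τ ≤ 1) (hε : 0 < ε) :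
    ∃ X₀ : ℕ, ∀ X : ℕ, X₀ ≤ X → ((OffSmall k X τ).ncard : ℝ) ≤
      (X : ℝ) ^ (max (2 / (k : ℝ)) (1 / k + (1 - 1 / k) * τ) + ε) := by
  classical
  have hK : (3 : ℝ) ≤ k := by exact_mod_cast hk
  have hK0 : (0 : ℝ) < k := by linarith
  have hs := ss_nonneg k
  set e : ℝ := max (2 / (k : ℝ)) (1 / k + (1 - 1 / k) * τ) with he
  set c0 : ℝ := 2 * k + ss k / k with hc0
  obtain ⟨X₀, hX₀⟩ := asym_nat (A := 90) (B := 1950 * k + ss k + 1)
    (by norm_num) (by positivity) (3 * k) (K := k * (5 * (2 : ℝ) ^ c0)) (δ := ε) (by positivity) hε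
  refine ⟨X₀, fun X hX => ?_⟩
  obtain ⟨x, hx0, hxX, hx⟩ := hX₀ X hX
  set J : Fin k → Finset ℕ := fun i => (Icc 1 X).filter (fun N => ∃ a b : Fin k → ℕ,
    (∀ l, 0 < a l) ∧ (∀ l, 0 < b l) ∧ N + W b = W a ∧
    ∏ l ∈ univ.erase i, ((a l : ℝ) * (b l : ℝ)) ≤ (X : ℝ) ^ τ) with hJ
  have hJb : ∀ i, ((J i).card : ℝ) ≤ (90 * x + (1950 * k + ss k + 1)) ^ (3 * k) *
      (5 * (2 : ℝ) ^ (e * x + c0)) := by
    intro i
    have hch := choose_tuples' (k := k) (J i) (fun z => Rep ((2 : ℝ) ^ x) z ∧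
      ∏ l ∈ univ.erase i, ((z.2.1 l : ℝ) * z.2.2 l) ≤ (2 : ℝ) ^ (τ * x)) ?_
    · obtain ⟨S, hS1, hS2, hS3⟩ := hch
      rw [← hS1]
      exact unb_count hk i hτ0 hτ1 hx0 S hS3 hS2
    · intro N hN
      rw [hJ, mem_filter, mem_Icc] at hN
      obtain ⟨⟨hN1, hN2⟩, a, b, ha, hb, hab, hoff⟩ := hN
      obtain ⟨z, hz, e1, e2, l1, l2⟩ := reduce' hN1 ha hb hab
      refine ⟨z, ⟨hz.mono ?_, ?_⟩, ?_⟩
      · rw [hxX]
        exact_mod_cast hN2
      · rw [mul_comm τ x, Real.rpow_mul (by norm_num), hxX]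
        refine le_trans ?_ hoff
        refine prod_le_prod (fun l _ => by positivity) fun l _ => ?_
        exact mul_le_mul (by exact_mod_cast l1 l) (by exact_mod_cast l2 l) (by positivity)
          (by positivity)
      · rw [e1, e2, hab]
  have hsub : OffSmall k X τ ⊆ ((univ.biUnion J : Finset ℕ) : Set ℕ) := by
    rintro N ⟨hN1, hN2, a, b, i, ha, hb, hab, hoff⟩
    rw [mem_coe, mem_biUnion]
    refine ⟨i, mem_univ _, ?_⟩
    rw [hJ, mem_filter, mem_Icc]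
    exact ⟨⟨hN1, hN2⟩, a, b, ha, hb, hab, hoff⟩
  have h1 := Set.ncard_le_ncard hsub (Finset.finite_toSet _)
  rw [Set.ncard_coe_finset] at h1
  have h2 : ((univ.biUnion J).card : ℝ) ≤ ∑ i : Fin k, ((J i).card : ℝ) := by
    exact_mod_cast card_biUnion_le
  have h3 : ((OffSmall k X τ).ncard : ℝ) ≤ ((univ.biUnion J).card : ℝ) := by exact_mod_cast h1
  have h4 : ∑ i : Fin k, ((J i).card : ℝ) ≤ k * ((90 * x + (1950 * k + ss k + 1)) ^ (3 * k) *
      (5 * (2 : ℝ) ^ (e * x + c0))) := by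
    refine (sum_le_sum fun i _ => hJb i).trans (le_of_eq ?_)
    rw [sum_const, card_univ, Fintype.card_fin, nsmul_eq_mul]
  have e2 : (X : ℝ) ^ (e + ε) = (2 : ℝ) ^ (e * x) * (2 : ℝ) ^ (ε * x) := by
    rw [← hxX, ← Real.rpow_mul (by norm_num), ← Real.rpow_add (by norm_num)]
    congr 1
    ring
  rw [e2]
  calc ((OffSmall k X τ).ncard : ℝ) ≤ k * ((90 * x + (1950 * k + ss k + 1)) ^ (3 * k) *
      (5 * (2 : ℝ) ^ (e * x + c0))) := h3.trans (h2.trans h4)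
    _ = (2 : ℝ) ^ (e * x) * ((90 * x + (1950 * k + ss k + 1)) ^ (3 * k) *
          (k * (5 * (2 : ℝ) ^ c0))) := by
        rw [Real.rpow_add (by norm_num : (0 : ℝ) < 2)]
        ring
    _ ≤ _ := mul_le_mul_of_nonneg_left hx (by positivity)

/-- **Theorem.** Let `k ≥ 3`, `0 ≤ τ ≤ 1` and `ε > 0`. For all large `X` the number of `N ≤ X` which
have a `k`-powerful representation, of any size, as in `OffSmall` is between `X ^ (2 / k - ε)` and
`X ^ (max (2 / k) (1 / k + (1 - 1 / k) τ) + ε)`. -/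
theorem result (k : ℕ) (hk : 3 ≤ k) (τ ε : ℝ) (hτ0 : 0 ≤ τ) (hτ1 : τ ≤ 1) (hε : 0 < ε) :
    ∃ X₀ : ℕ, ∀ X : ℕ, X₀ ≤ X →
      (X : ℝ) ^ (2 / (k : ℝ) - ε) ≤ ((OffSmall k X τ).ncard : ℝ) ∧
      ((OffSmall k X τ).ncard : ℝ) ≤
        (X : ℝ) ^ (max (2 / (k : ℝ)) (1 / k + (1 - 1 / k) * τ) + ε) := by
  classical
  obtain ⟨X₁, h1⟩ := lower (k := k) (by omega) hε
  obtain ⟨X₂, h2⟩ := upper hk hτ0 hτ1 hε
  refine ⟨max (max X₁ X₂) 1, fun X hX => ⟨?_, h2 X ((le_max_right _ _).trans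
    ((le_max_left _ _).trans hX))⟩⟩
  obtain ⟨I, hI1, hI2⟩ := h1 X ((le_max_left _ _).trans ((le_max_left _ _).trans hX))
  have hX1 : (1 : ℝ) ≤ X := by exact_mod_cast (le_max_right _ _).trans hX
  refine hI1.trans ?_
  have hk0 : 0 < k := by omega
  have h3 : (I : Set ℕ) ⊆ OffSmall k X τ := by
    intro N hN
    obtain ⟨n1, n2, a, b, hb, hab, haX⟩ := hI2 N hN
    have ha : 0 < a := by
      rcases Nat.eq_zero_or_pos a with h | h
      · rw [h, zero_pow (by omega)] at hab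
        omega
      · exact h
    have hW : ∀ c : ℕ, 0 < c → ∏ l : Fin k,
        (if l = (⟨0, hk0⟩ : Fin k) then c else 1) ^ (k + (l : ℕ)) = c ^ k := by
      intro c hc
      rw [prod_eq_single (⟨0, hk0⟩ : Fin k)]
      · simp
      · intro l _ hl
        rw [if_neg hl, one_pow]
      · intro h
        exact absurd (mem_univ _) h
    refine ⟨n1, n2, fun l => if l = (⟨0, hk0⟩ : Fin k) then a else 1,
      fun l => if l = (⟨0, hk0⟩ : Fin k) then b else 1, ⟨0, hk0⟩, fun l => ?_, fun l => ?_, ?_, ?_⟩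
    · simp only
      split_ifs
      · exact ha
      · exact Nat.one_pos
    · simp only
      split_ifs
      · exact hb
      · exact Nat.one_pos
    · rw [hW a ha, hW b hb]
      exact hab
    · have : ∏ l ∈ univ.erase (⟨0, hk0⟩ : Fin k),
          (((if l = (⟨0, hk0⟩ : Fin k) then a else 1 : ℕ) : ℝ) *
            ((if l = (⟨0, hk0⟩ : Fin k) then b else 1 : ℕ) : ℝ)) = 1 := by
        refine prod_eq_one fun l hl => ?_
        rw [if_neg (ne_of_mem_erase hl), if_neg (ne_of_mem_erase hl)]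
        simp
      rw [this]
      exact Real.one_le_rpow hX1 hτ0
  have hfin : (OffSmall k X τ).Finite := (Set.finite_Icc 1 X).subset fun N hN => ⟨hN.1, hN.2.1⟩
  have h4 := Set.ncard_le_ncard h3 hfin
  rw [Set.ncard_coe_finset] at h4
  exact_mod_cast h4

end Pool.Agent.Results.MP_65ca9f_nt.AnySize
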