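import Pool.Agent.Lib.MP_65ca9f_nt.Height
import Pool.Agent.Lib.MP_65ca9f_nt.Reduce
import Pool.Agent.Lib.MP_65ca9f_nt.Lower

/-!
# Differences of `k`-powerful numbers of bounded height

The number of integers up to `X` which are differences of two `k`-powerful numbers up to `X ^ C`.
-/

set_option autoImplicit false

namespace Pool.Agent.Results.MP_65ca9f_nt.BoundedHeight

open Finset Pool.Agent.Lib.MP_65ca9f_nt

/-- `n` is `k`-powerful -/
def Powerful (k n : ℕ) : Prop := 0 < n ∧ ∀ p : ℕ, p.Prime → p ∣ n → p ^ k ∣ n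

/-- the `N` in `[1, X]` which are differences of two `k`-powerful numbers, the larger of which is
at most `X ^ C` -/
def HSet (k X : ℕ) (C : ℝ) : Set ℕ :=
  {N | 1 ≤ N ∧ N ≤ X ∧ ∃ n₁ n₂ : ℕ, Powerful k n₁ ∧ Powerful k n₂ ∧ N + n₂ = n₁ ∧
    (n₁ : ℝ) ≤ (X : ℝ) ^ C}

/-- the admissible exponents `e` for the height `C` -/
def Adm (k : ℕ) (C e : ℝ) : Prop :=
  2 / (k : ℝ) ≤ e ∧ ∀ m : ℕ, 2 ≤ m → m ≤ k → 4 * ((m : ℝ) - 1) * C ≤ e * (m * (2 * k + m - 1))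

private theorem upper {k : ℕ} (hk : 3 ≤ k) {C e ε : ℝ} (hC : 1 ≤ C) (hadm : Adm k C e)
    (hε : 0 < ε) :
    ∃ X₀ : ℕ, ∀ X : ℕ, X₀ ≤ X → ((HSet k X C).ncard : ℝ) ≤ (X : ℝ) ^ (e + ε) := by
  classical
  obtain ⟨he, hm⟩ := hadm
  have hK : (3 : ℝ) ≤ k := by exact_mod_cast hk
  have hK0 : (0 : ℝ) < k := by linarith
  have hC0 : 0 < C := by linarith
  have hs := ss_nonneg k
  have he0 : 0 < e := lt_of_lt_of_le (by positivity) he
  set t : ℝ := e / (2 * C) with ht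
  have ht0 : 0 ≤ t := by positivity
  have hte : 2 * t * C = e := by
    rw [ht]
    field_simp
  have hcond : ∀ m : ℕ, 1 ≤ m → m ≤ k →
      (m : ℝ) - 1 ≤ t * (m * (2 * k + m - 1) / 2) := by
    intro m hm1 hmk
    rcases Nat.eq_or_lt_of_le hm1 with h | h
    · rw [← h]
      push_cast
      have : 0 ≤ t * (1 * (2 * (k : ℝ) + 1 - 1) / 2) := mul_nonneg ht0 (by linarith)
      linarith
    · have h1 := hm m h hmk
      have h2 : t * (m * (2 * k + m - 1) / 2) = e * (m * (2 * k + m - 1)) / (4 * C) := by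
        rw [ht]
        field_simp
        ring
      rw [h2, le_div_iff₀ (by positivity)]
      linarith
  set Cst : ℝ := 2 * k + ss k / k + t * ss k with hCst
  obtain ⟨X₀, hX₀⟩ := asym_nat (A := C) (B := ss k + 1)
    (by positivity) (by positivity) (3 * k) (K := 2 * (2 : ℝ) ^ Cst) (δ := ε) (by positivity) hε
  refine ⟨X₀, fun X hX => ?_⟩
  obtain ⟨x, hx0, hxX, hx⟩ := hX₀ X hX
  set I : Finset ℕ := (Icc 1 X).filter (fun N => N ∈ HSet k X C) with hI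
  have hIeq : (I : Set ℕ) = HSet k X C := by
    ext N
    rw [hI, mem_coe, mem_filter, mem_Icc]
    exact ⟨fun h => h.2, fun h => ⟨⟨h.1, h.2.1⟩, h⟩⟩
  rw [← hIeq, Set.ncard_coe_finset]
  have hch := choose_tuples (k := k) I (fun z => Rep ((2 : ℝ) ^ x) z ∧
      (W z.1 : ℝ) * W z.2.1 ≤ (2 : ℝ) ^ (C * x)) ?_
  · obtain ⟨S, hS1, hS2⟩ := hch
    rw [← hS1]
    have key := height_count hk ht0 hcond hC0.le hx0 S hS2
    rw [hte, max_eq_right he, ← hCst] at key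
    refine key.trans ?_
    rw [Real.rpow_add (by norm_num : (0 : ℝ) < 2)]
    have e2 : (X : ℝ) ^ (e + ε) = (2 : ℝ) ^ (e * x) * (2 : ℝ) ^ (ε * x) := by
      rw [← hxX, ← Real.rpow_mul (by norm_num), ← Real.rpow_add (by norm_num)]
      congr 1
      ring
    rw [e2]
    calc (C * x + (ss k + 1)) ^ (3 * k) * (2 * ((2 : ℝ) ^ (e * x) * (2 : ℝ) ^ Cst)) =
          (2 : ℝ) ^ (e * x) * ((C * x + (ss k + 1)) ^ (3 * k) * (2 * (2 : ℝ) ^ Cst)) := by ring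
      _ ≤ _ := mul_le_mul_of_nonneg_left hx (by positivity)
  · intro N hN
    rw [hI, mem_filter] at hN
    obtain ⟨-, hN1, hN2, n₁, n₂, h1, h2, hsum, hh⟩ := hN
    obtain ⟨z, hz, e1, e2⟩ := reduce (k := k) (by omega) hN1 h1 h2 hsum
    refine ⟨z, ⟨hz.mono ?_, ?_⟩, ?_⟩
    · rw [hxX]
      exact_mod_cast hN2
    · have e3 : (W z.1 : ℝ) * W z.2.1 = n₁ := by exact_mod_cast e1
      rw [e3, mul_comm C x, Real.rpow_mul (by norm_num), hxX]
      exact hh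
    · rw [e1, e2, hsum]

private theorem main :
    (∀ k : ℕ, 3 ≤ k → ∀ C e : ℝ, 1 ≤ C → Adm k C e → ∀ ε : ℝ, 0 < ε →
      ∃ X₀ : ℕ, ∀ X : ℕ, X₀ ≤ X →
        (X : ℝ) ^ (2 / (k : ℝ) - ε) ≤ ((HSet k X C).ncard : ℝ) ∧
        ((HSet k X C).ncard : ℝ) ≤ (X : ℝ) ^ (e + ε)) ∧
    (∀ k : ℕ, 3 ≤ k → ∀ C : ℝ, 1 ≤ C →
      Adm k C (max (2 / (k : ℝ)) (4 * C / (1 + √(2 * k)) ^ 2))) ∧
    (∀ C : ℝ, 1 ≤ C → Adm 3 C (max (2 / 3) (C / 3))) ∧
    (∀ C : ℝ, 1 ≤ C → Adm 4 C (max (1 / 2) (3 * C / 11))) := by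
  classical
  refine ⟨?_, ?_, ?_, ?_⟩
  · intro k hk C e hC hadm ε hε
    obtain ⟨X₁, h1⟩ := lower (k := k) (by omega) hε
    obtain ⟨X₂, h2⟩ := upper hk hC hadm hε
    refine ⟨max (max X₁ X₂) 1, fun X hX => ⟨?_, h2 X ((le_max_right _ _).trans
      ((le_max_left _ _).trans hX))⟩⟩
    obtain ⟨I, hI1, hI2⟩ := h1 X ((le_max_left _ _).trans ((le_max_left _ _).trans hX))
    have hX1 : (1 : ℝ) ≤ X := by exact_mod_cast (le_max_right _ _).trans hX
    refine hI1.trans ?_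
    have h3 : (I : Set ℕ) ⊆ HSet k X C := by
      intro N hN
      obtain ⟨n1, n2, a, b, hb, hab, haX⟩ := hI2 N hN
      have hpow : ∀ c : ℕ, 0 < c → Powerful k (c ^ k) := by
        intro c hc
        refine ⟨pow_pos hc k, fun p hp hpc => ?_⟩
        exact pow_dvd_pow_of_dvd (hp.dvd_of_dvd_pow hpc) k
      refine ⟨n1, n2, a ^ k, b ^ k, hpow a ?_, hpow b hb, hab, ?_⟩
      · rcases Nat.eq_zero_or_pos a with h | h
        · rw [h, zero_pow (by omega)] at hab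
          omega
        · exact h
      · calc ((a ^ k : ℕ) : ℝ) ≤ X := by exact_mod_cast haX
          _ = (X : ℝ) ^ (1 : ℝ) := (Real.rpow_one _).symm
          _ ≤ _ := Real.rpow_le_rpow_of_exponent_le hX1 hC
    have hfin : (HSet k X C).Finite := (Set.finite_Icc 1 X).subset fun N hN => ⟨hN.1, hN.2.1⟩
    have h4 := Set.ncard_le_ncard h3 hfin
    rw [Set.ncard_coe_finset] at h4
    exact_mod_cast h4
  · intro k hk C hC
    have hK : (3 : ℝ) ≤ k := by exact_mod_cast hk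
    refine ⟨le_max_left _ _, fun m hm hmk => ?_⟩
    have hm2 : (2 : ℝ) ≤ m := by exact_mod_cast hm
    set r : ℝ := √(2 * k) with hr
    have hr0 : 0 ≤ r := Real.sqrt_nonneg _
    have hr2 : r ^ 2 = 2 * k := Real.sq_sqrt (by linarith)
    have h1 : 4 * C / (1 + r) ^ 2 * (m * (2 * k + m - 1)) ≤
        max (2 / (k : ℝ)) (4 * C / (1 + r) ^ 2) * (m * (2 * k + m - 1)) := by
      refine mul_le_mul_of_nonneg_right (le_max_right _ _) ?_
      exact mul_nonneg (by linarith) (by linarith)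
    refine le_trans ?_ h1
    rw [div_mul_eq_mul_div, le_div_iff₀ (by positivity)]
    have h2 : ((m : ℝ) - 1) * (1 + r) ^ 2 ≤ m * (2 * k + m - 1) := by
      rw [← hr2]
      nlinarith [sq_nonneg ((m : ℝ) - 1 - r)]
    nlinarith [mul_le_mul_of_nonneg_left h2 (by linarith : (0 : ℝ) ≤ 4 * C)]
  · intro C hC
    refine ⟨by push_cast; exact le_max_left _ _, fun m hm hmk => ?_⟩
    have h1 : C / 3 ≤ max (2 / 3) (C / 3) := le_max_right _ _
    have hm' : m = 2 ∨ m = 3 := by omega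
    rcases hm' with rfl | rfl
    · push_cast
      nlinarith
    · push_cast
      nlinarith
  · intro C hC
    refine ⟨by push_cast; exact le_trans (by norm_num) (le_max_left _ _), fun m hm hmk => ?_⟩
    have h1 : 3 * C / 11 ≤ max (1 / 2) (3 * C / 11) := le_max_right _ _
    have hm' : m = 2 ∨ m = 3 ∨ m = 4 := by omega
    rcases hm' with rfl | rfl | rfl
    · push_cast
      nlinarith
    · push_cast
      nlinarith
    · push_cast
      nlinarith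

private theorem adm_abc (k : ℕ) (hk : 5 ≤ k) (C : ℝ) (hC : 1 ≤ C) (hC2 : C ≤ (k : ℝ) / (k - 2)) :
    Adm k C (2 / (k : ℝ)) := by
  have hK : (5 : ℝ) ≤ k := by exact_mod_cast hk
  refine ⟨le_rfl, fun m hm hmk => ?_⟩
  have hm2 : (2 : ℝ) ≤ m := by exact_mod_cast hm
  set r : ℝ := √(2 * k) with hr
  have hr0 : 0 ≤ r := Real.sqrt_nonneg _
  have hr2 : r ^ 2 = 2 * k := Real.sq_sqrt (by linarith)
  have hr3 : (316 / 100 : ℝ) ≤ r := by
    rw [hr]
    apply Real.le_sqrt_of_sq_le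
    norm_num
    linarith
  rw [le_div_iff₀ (by linarith)] at hC2
  have h1 : ((m : ℝ) - 1) * (1 + r) ^ 2 ≤ m * (2 * k + m - 1) := by
    rw [← hr2]
    nlinarith [sq_nonneg ((m : ℝ) - 1 - r)]
  have h2 : 2 * (k : ℝ) ^ 2 ≤ (k - 2) * (1 + r) ^ 2 := by
    have : (1 + r) ^ 2 = 1 + 2 * r + 2 * k := by
      rw [← hr2]
      ring
    rw [this]
    nlinarith
  rw [div_mul_eq_mul_div, le_div_iff₀ (by linarith)]
  have h3 : C * (2 * (k : ℝ) ^ 2) ≤ k * (1 + r) ^ 2 := by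
    calc C * (2 * (k : ℝ) ^ 2) ≤ C * ((k - 2) * (1 + r) ^ 2) :=
          mul_le_mul_of_nonneg_left h2 (by linarith)
      _ = C * (k - 2) * (1 + r) ^ 2 := by ring
      _ ≤ k * (1 + r) ^ 2 := mul_le_mul_of_nonneg_right hC2 (sq_nonneg _)
  have h4 : 2 * k * C ≤ (1 + r) ^ 2 := by
    have hk0 : (0 : ℝ) < k := by linarith
    have h5 : (k : ℝ) * (2 * k * C) ≤ k * (1 + r) ^ 2 := by linarith
    exact le_of_mul_le_mul_left h5 hk0
  have h6 : ((m : ℝ) - 1) * (2 * k * C) ≤ m * (2 * k + m - 1) :=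
    (mul_le_mul_of_nonneg_left h4 (by linarith)).trans h1
  linarith

/-- Let `HSet k X C` be the set of the integers in `[1, X]` which are differences of two `k`-powerful
numbers, the larger of which is at most `X ^ C`. For `k ≥ 5` and `1 ≤ C ≤ k / (k - 2)` it has between
`X ^ (2 / k - ε)` and `X ^ (2 / k + ε)` elements, for every `ε > 0` and all large `X`. The same with the
upper bound `X ^ (e + ε)` for all `k ≥ 3`, `C ≥ 1` and all exponents `e` with `Adm k C e`, in particular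
for `e = max (2 / k) (4 C / (1 + √(2 k)) ^ 2)`, for `k = 3`, `e = max (2 / 3) (C / 3)`, and for `k = 4`,
`e = max (1 / 2) (3 C / 11)`. -/
theorem result :
    (∀ k : ℕ, 5 ≤ k → ∀ C : ℝ, 1 ≤ C → C ≤ (k : ℝ) / (k - 2) → ∀ ε : ℝ, 0 < ε →
      ∃ X₀ : ℕ, ∀ X : ℕ, X₀ ≤ X →
        (X : ℝ) ^ (2 / (k : ℝ) - ε) ≤ ((HSet k X C).ncard : ℝ) ∧
        ((HSet k X C).ncard : ℝ) ≤ (X : ℝ) ^ (2 / (k : ℝ) + ε)) ∧
    (∀ k : ℕ, 3 ≤ k → ∀ C e : ℝ, 1 ≤ C → Adm k C e → ∀ ε : ℝ, 0 < ε →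
      ∃ X₀ : ℕ, ∀ X : ℕ, X₀ ≤ X →
        (X : ℝ) ^ (2 / (k : ℝ) - ε) ≤ ((HSet k X C).ncard : ℝ) ∧
        ((HSet k X C).ncard : ℝ) ≤ (X : ℝ) ^ (e + ε)) ∧
    (∀ k : ℕ, 3 ≤ k → ∀ C : ℝ, 1 ≤ C →
      Adm k C (max (2 / (k : ℝ)) (4 * C / (1 + √(2 * k)) ^ 2))) ∧
    (∀ C : ℝ, 1 ≤ C → Adm 3 C (max (2 / 3) (C / 3))) ∧
    (∀ C : ℝ, 1 ≤ C → Adm 4 C (max (1 / 2) (3 * C / 11))) :=
  ⟨fun k hk C hC hC2 ε hε => main.1 k (by omega) C _ hC (adm_abc k hk C hC hC2) ε hε, main⟩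

end Pool.Agent.Results.MP_65ca9f_nt.BoundedHeight
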